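import Mathlib
import Pool.Agent.Y432.KC.K8

/-!
# Almost every matroid is `k`-connected

For every fixed `k`, the proportion of labelled matroids with `n` elements that are `k`-connected
tends to `1`, and so does the proportion of unlabelled ones. More precisely, for `k ≤ log n / 20`
at most one in `2 ^ ⌊n ^ 2 / 2⌋` of the labelled matroids, and of the isomorphism classes, fails to
be `k`-connected.

Method. A matroid `M` is determined by few bits of information, a small family of nonbases, and a
family `R` of nonbases no two of which are adjacent in the Johnson graph (the description of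
matroids behind the asymmetry of almost all matroids). If `M` has a `j`-separation `(X, Y)` with
`j < k`, then either `X` or `Y` has at most `k + 2` elements and contains a circuit or a cocircuit
`C`, or all bases of `M` meet `X` in a number of elements from a window of length `k`, while
`|X|, |Y| ≥ k + 3`. If `C` is a circuit with at least two elements, then all members of `R` miss at
least two elements of `C`, so that `R` can be joined with every stable family of sets that contain
`C`. In the case of a window, let `V` be the family of all sets that meet `X` in fewer elements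
than the window allows minus one, or in more than it allows plus one; then the members of `R`
inside of the window can be joined with every stable subfamily of `V`, and `V` contains at least
`81 ^ (- k - 3)` of all sets, because moving `k + 3` elements from `X` to `Y` leaves the enlarged
window. Both times the number of matroids in question is smaller than the number of all matroids by
a factor of the form `2 ^ (c ^ k * choose n (n / 2) / n)`. Loops are turned into elements of
circuits of size two; cocircuits are treated by duality.
-/

set_option autoImplicit false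

open Filter

namespace Pool.Agent.Results.MP_8c9d5b_co.AlmostAllKConnected

open Pool.Agent.Y432.KC

theorem result :
    -- for every fixed `k`, almost every matroid is `k`-connected: labelled and unlabelled
    (∀ k : ℕ,
      Tendsto (fun n : ℕ => (Nat.card {M : LM n // KConn k M.1} : ℝ) / (Nat.card (LM n) : ℝ))
        atTop (nhds 1) ∧
      Tendsto (fun n : ℕ =>
          (Nat.card {q : Quot (Iso (n := n)) // ∀ M : LM n, Quot.mk _ M = q → KConn k M.1} : ℝ) /
            (Nat.card (Quot (Iso (n := n))) : ℝ))
        atTop (nhds 1)) ∧
    -- the exceptional set is very small, even if `k` grows like `log n / 20`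
    (∀ᶠ n : ℕ in atTop, ∀ k : ℕ, (k : ℝ) ≤ Real.log n / 20 →
      (Nat.card {M : LM n // ¬ KConn k M.1} : ℝ) ≤ (Nat.card (LM n) : ℝ) / 2 ^ (n ^ 2 / 2) ∧
      (Nat.card {q : Quot (Iso (n := n)) // ∃ M : LM n, Quot.mk _ M = q ∧ ¬ KConn k M.1} : ℝ) ≤
        (Nat.card (Quot (Iso (n := n))) : ℝ) / 2 ^ (n ^ 2 / 2)) := by
  have hlog : ∀ k : ℕ, ∀ᶠ n : ℕ in atTop, (k : ℝ) ≤ Real.log n / 20 := by
    intro k
    have h1 : Tendsto (fun n : ℕ => Real.log (n : ℝ)) atTop atTop :=
      Real.tendsto_log_atTop.comp tendsto_natCast_atTop_atTop
    filter_upwards [h1.eventually_ge_atTop (20 * (k : ℝ))] with n hn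
    linarith
  refine ⟨fun k => ⟨?_, ?_⟩, ?_⟩
  · have hfin : ∀ n, Finite (LM n) := fun n => Pool.Agent.Helper46.A.F.finX_22726 n
    refine frac_tendsto (α := LM) (fun n M => KConn k M.1) posLM ?_
    filter_upwards [both_bounds, hlog k] with n hn hk
    exact (hn k hk).1
  · refine frac_tendsto (α := fun n => Quot (Iso (n := n)))
      (fun n q => ∀ M : LM n, Quot.mk _ M = q → KConn k M.1) posQ ?_
    filter_upwards [both_bounds, hlog k] with n hn hk
    exact (hn k hk).2
  · filter_upwards [both_bounds] with n hn k hk
    have hP : (0 : ℝ) < 2 ^ (n ^ 2 / 2) := by positivity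
    obtain ⟨h1, h2⟩ := hn k hk
    refine ⟨(le_div_iff₀ hP).2 h1, (le_div_iff₀ hP).2 ?_⟩
    have e : ∀ q : Quot (Iso (n := n)), (∃ M : LM n, Quot.mk _ M = q ∧ ¬ KConn k M.1) ↔
        ¬ ∀ M : LM n, Quot.mk _ M = q → KConn k M.1 := by
      intro q
      push Not
      rfl
    have e2 : Nat.card {q : Quot (Iso (n := n)) // ∃ M : LM n, Quot.mk _ M = q ∧ ¬ KConn k M.1} =
        Nat.card {q : Quot (Iso (n := n)) // ¬ ∀ M : LM n, Quot.mk _ M = q → KConn k M.1} :=
      Nat.card_congr (Equiv.subtypeEquivRight e)
    rw [e2]
    exact h2

end Pool.Agent.Results.MP_8c9d5b_co.AlmostAllKConnected
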